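import Mathlib

/-!
# MP_db617b_an: a disconnected fibre of the step-function moment map

For `k = 2` and `A = {1, 2, 3}` we exhibit a vector `m` whose fibre under `μ_A` is disconnected.

Idea.  For a point of `P` with breakpoints `s ≤ t` put `y_a = (a+1) m_a` and `z_j = y_{j+1} - y_j`.
Then `z_0 s t - z_1 (s+t) + z_2 = 0`, a hyperbola in the `(s,t)` plane; it can have two branches, one
on each side of the line `s + t = 2 z_1 / z_0`, and both can meet `P`.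
-/

namespace Pool.Agent.Results.MP_db617b_an.DisconnectedFibre

open Finset

/-- The parameter space `P`: pairs `(s, w)` with `0 ≤ s_1 ≤ … ≤ s_k ≤ 1`, `w_i ≥ 0`, `∑ w_i = 1`. -/
def P (k : ℕ) : Set ((Fin k → ℝ) × (Fin (k + 1) → ℝ)) :=
  {p | (∀ i, 0 ≤ p.1 i) ∧ Monotone p.1 ∧ (∀ i, p.1 i ≤ 1) ∧ (∀ i, 0 ≤ p.2 i) ∧ ∑ i, p.2 i = 1}

/-- The breakpoints `s_0 = 0, s_1, …, s_k, s_{k+1} = 1` (the vector `s` is indexed from `0`,
so `s_i` of the problem is `s ⟨i-1, _⟩`). -/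
noncomputable def brk (k : ℕ) (s : Fin k → ℝ) (i : ℕ) : ℝ :=
  if i = 0 then 0 else if h : i - 1 < k then s ⟨i - 1, h⟩ else 1

/-- The `a`-th coordinate of the moment map:
`∑_{i=1}^{k+1} w_i (s_i^a + s_i^{a-1} s_{i-1} + ⋯ + s_{i-1}^a) / (a+1)`
(the summation index `i` runs from `0` to `k` here). -/
noncomputable def mom (k : ℕ) (p : (Fin k → ℝ) × (Fin (k + 1) → ℝ)) (a : ℕ) : ℝ :=
  ∑ i : Fin (k + 1),
    p.2 i * ((∑ j ∈ range (a + 1), brk k p.1 (i + 1) ^ (a - j) * brk k p.1 i ^ j) / (a + 1))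

/-- The moment map `μ_A`, with values in `ℝ^A`. -/
noncomputable def momentMap (k : ℕ) (A : Finset ℕ) (p : (Fin k → ℝ) × (Fin (k + 1) → ℝ)) :
    A → ℝ := fun a => mom k p a

/-- The fibre of `μ_A : P → ℝ^A` over `m`. -/
def fibre (k : ℕ) (A : Finset ℕ) (m : A → ℝ) : Set ((Fin k → ℝ) × (Fin (k + 1) → ℝ)) :=
  {p | p ∈ P k ∧ momentMap k A p = m}

/-- First witness: breakpoints `1/5, 2/5`, weights `1/7, 0, 6/7`. -/
noncomputable def pf : (Fin 2 → ℝ) × (Fin 3 → ℝ) := (![1 / 5, 2 / 5], ![1 / 7, 0, 6 / 7])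

/-- Second witness: breakpoints `3/5, 4/5`, weights `12/35, 14/35, 9/35`. -/
noncomputable def pg : (Fin 2 → ℝ) × (Fin 3 → ℝ) :=
  (![3 / 5, 4 / 5], ![12 / 35, 14 / 35, 9 / 35])

lemma brk_two (s : Fin 2 → ℝ) :
    brk 2 s 0 = 0 ∧ brk 2 s 1 = s 0 ∧ brk 2 s 2 = s 1 ∧ brk 2 s 3 = 1 := by
  refine ⟨by simp [brk], by simp [brk], ?_, by simp [brk]⟩
  simp [brk]

lemma mom_one (p : (Fin 2 → ℝ) × (Fin 3 → ℝ)) :
    2 * mom 2 p 1 = p.2 0 * p.1 0 + p.2 1 * (p.1 0 + p.1 1) + p.2 2 * (1 + p.1 1) := by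
  obtain ⟨h0, h1, h2, h3⟩ := brk_two p.1
  rw [show mom 2 p 1 = _ from Fin.sum_univ_three _]
  simp only [Finset.sum_range_succ, Finset.sum_range_zero]
  norm_num [h0, h1, h2, h3]
  ring

lemma mom_two (p : (Fin 2 → ℝ) × (Fin 3 → ℝ)) :
    3 * mom 2 p 2 = p.2 0 * p.1 0 ^ 2 + p.2 1 * (p.1 0 ^ 2 + p.1 0 * p.1 1 + p.1 1 ^ 2)
      + p.2 2 * (1 + p.1 1 + p.1 1 ^ 2) := by
  obtain ⟨h0, h1, h2, h3⟩ := brk_two p.1
  rw [show mom 2 p 2 = _ from Fin.sum_univ_three _]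
  simp only [Finset.sum_range_succ, Finset.sum_range_zero]
  norm_num [h0, h1, h2, h3]
  ring

lemma mom_three (p : (Fin 2 → ℝ) × (Fin 3 → ℝ)) :
    4 * mom 2 p 3 = p.2 0 * p.1 0 ^ 3
      + p.2 1 * (p.1 0 ^ 3 + p.1 0 ^ 2 * p.1 1 + p.1 0 * p.1 1 ^ 2 + p.1 1 ^ 3)
      + p.2 2 * (1 + p.1 1 + p.1 1 ^ 2 + p.1 1 ^ 3) := by
  obtain ⟨h0, h1, h2, h3⟩ := brk_two p.1
  rw [show mom 2 p 3 = _ from Fin.sum_univ_three _]
  simp only [Finset.sum_range_succ, Finset.sum_range_zero]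
  norm_num [h0, h1, h2, h3]
  ring

lemma pf_mem : pf ∈ P 2 := by
  refine ⟨?_, ?_, ?_, ?_, ?_⟩
  · intro i; fin_cases i <;> norm_num [pf]
  · intro i j hij
    fin_cases i <;> fin_cases j <;> first | (norm_num [pf]; done) | (exfalso; revert hij; decide)
  · intro i; fin_cases i <;> norm_num [pf]
  · intro i; fin_cases i <;> norm_num [pf]
  · exact (Fin.sum_univ_three _).trans (by simp only [pf, Matrix.cons_val_zero, Matrix.cons_val_one, Matrix.cons_val]; norm_num)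

lemma pg_mem : pg ∈ P 2 := by
  refine ⟨?_, ?_, ?_, ?_, ?_⟩
  · intro i; fin_cases i <;> norm_num [pg]
  · intro i j hij
    fin_cases i <;> fin_cases j <;> first | (norm_num [pg]; done) | (exfalso; revert hij; decide)
  · intro i; fin_cases i <;> norm_num [pg]
  · intro i; fin_cases i <;> norm_num [pg]
  · exact (Fin.sum_univ_three _).trans (by simp only [pg, Matrix.cons_val_zero, Matrix.cons_val_one, Matrix.cons_val]; norm_num)

lemma pf_mom : mom 2 pf 1 = 43 / 70 ∧ mom 2 pf 2 = 47 / 105 ∧ mom 2 pf 3 = 1219 / 3500 := by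
  have h1 := mom_one pf
  have h2 := mom_two pf
  have h3 := mom_three pf
  simp only [pf, Matrix.cons_val_zero, Matrix.cons_val_one, Matrix.cons_val] at h1 h2 h3 ⊢
  norm_num at h1 h2 h3 ⊢
  refine ⟨by linarith, by linarith, by linarith⟩

lemma pg_mom : mom 2 pg 1 = 43 / 70 ∧ mom 2 pg 2 = 47 / 105 ∧ mom 2 pg 3 = 1219 / 3500 := by
  have h1 := mom_one pg
  have h2 := mom_two pg
  have h3 := mom_three pg
  simp only [pg, Matrix.cons_val_zero, Matrix.cons_val_one, Matrix.cons_val] at h1 h2 h3 ⊢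
  norm_num at h1 h2 h3 ⊢
  refine ⟨by linarith, by linarith, by linarith⟩

/-- The separation: a point of `P 2` with these three moments cannot have `s_1 + s_2 = 1`. -/
lemma separation (p : (Fin 2 → ℝ) × (Fin 3 → ℝ)) (hp : p ∈ P 2)
    (h1 : mom 2 p 1 = 43 / 70) (h2 : mom 2 p 2 = 47 / 105) (h3 : mom 2 p 3 = 1219 / 3500) :
    p.1 0 + p.1 1 ≠ 1 := by
  intro hs
  have hw : p.2 0 + p.2 1 + p.2 2 = 1 := by
    have := hp.2.2.2.2
    simpa [Fin.sum_univ_three] using this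
  have e1 := mom_one p
  have e2 := mom_two p
  have e3 := mom_three p
  rw [h1] at e1
  rw [h2] at e2
  rw [h3] at e3
  have ht : p.1 1 = 1 - p.1 0 := by linarith
  rw [ht] at e1 e2 e3
  set s := p.1 0 with hsdef
  have key : (8 / 35 : ℝ) * (s * (1 - s)) - 4 / 35 + 44 / 875 = 0 := by
    have e0 := hw.symm
    linear_combination (s * (1 - s)) * (e1 - e0) - (e2 - e1) + (e3 - e2)
  nlinarith [sq_nonneg (s - 1 / 2)]

/-- The fibre over the common moment vector of the two witnesses is disconnected. -/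
theorem disconnected :
    ¬ IsPreconnected (fibre 2 {1, 2, 3} (momentMap 2 {1, 2, 3} pf)) := by
  intro hcon
  obtain ⟨f1, f2, f3⟩ := pf_mom
  obtain ⟨g1, g2, g3⟩ := pg_mom
  have hf : pf ∈ fibre 2 {1, 2, 3} (momentMap 2 {1, 2, 3} pf) := ⟨pf_mem, rfl⟩
  have hg : pg ∈ fibre 2 {1, 2, 3} (momentMap 2 {1, 2, 3} pf) := by
    refine ⟨pg_mem, ?_⟩
    funext a
    obtain ⟨a, ha⟩ := a
    simp only [Finset.mem_insert, Finset.mem_singleton] at ha
    rcases ha with rfl | rfl | rfl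
    · simp only [momentMap]; rw [f1, g1]
    · simp only [momentMap]; rw [f2, g2]
    · simp only [momentMap]; rw [f3, g3]
  have hcont : Continuous (fun p : (Fin 2 → ℝ) × (Fin 3 → ℝ) => p.1 0 + p.1 1) := by
    fun_prop
  have himg := hcon.image _ hcont.continuousOn
  have hord := himg.ordConnected
  have m1 : (3 / 5 : ℝ) ∈ (fun p : (Fin 2 → ℝ) × (Fin 3 → ℝ) => p.1 0 + p.1 1) ''
      (fibre 2 {1, 2, 3} (momentMap 2 {1, 2, 3} pf)) :=
    ⟨pf, hf, by simp only [pf, Matrix.cons_val_zero, Matrix.cons_val_one]; norm_num⟩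
  have m2 : (7 / 5 : ℝ) ∈ (fun p : (Fin 2 → ℝ) × (Fin 3 → ℝ) => p.1 0 + p.1 1) ''
      (fibre 2 {1, 2, 3} (momentMap 2 {1, 2, 3} pf)) :=
    ⟨pg, hg, by simp only [pg, Matrix.cons_val_zero, Matrix.cons_val_one]; norm_num⟩
  have m3 : (1 : ℝ) ∈ (fun p : (Fin 2 → ℝ) × (Fin 3 → ℝ) => p.1 0 + p.1 1) ''
      (fibre 2 {1, 2, 3} (momentMap 2 {1, 2, 3} pf)) :=
    hord.out m1 m2 ⟨by norm_num, by norm_num⟩
  obtain ⟨p, ⟨hpP, hpm⟩, hps⟩ := m3
  have k1 : mom 2 p 1 = 43 / 70 := by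
    have := congrFun hpm ⟨1, by simp⟩
    simp only [momentMap] at this
    rw [this, f1]
  have k2 : mom 2 p 2 = 47 / 105 := by
    have := congrFun hpm ⟨2, by simp⟩
    simp only [momentMap] at this
    rw [this, f2]
  have k3 : mom 2 p 3 = 1219 / 3500 := by
    have := congrFun hpm ⟨3, by simp⟩
    simp only [momentMap] at this
    rw [this, f3]
  exact separation p hpP k1 k2 k3 hps

/-- **Q1 is answered in the negative.**  For `k = 2` and `A = {1, 2, 3}` the moment map `μ_A` has a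
disconnected fibre, so it is not true that all fibres of all the maps `μ_A` are connected. -/
theorem result :
    (∃ m : ({1, 2, 3} : Finset ℕ) → ℝ, ¬ IsPreconnected (fibre 2 {1, 2, 3} m)) ∧
    ¬ (∀ k : ℕ, 1 ≤ k → ∀ A : Finset ℕ, ∀ m : A → ℝ, IsPreconnected (fibre k A m)) :=
  ⟨⟨_, disconnected⟩, fun h => disconnected (h 2 (by norm_num) _ _)⟩

end Pool.Agent.Results.MP_db617b_an.DisconnectedFibre
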